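import Pool.Agent.Helper13.LE.SECG

/-! # MP_08fe4e_an: module S1 (the scale invariant density `gam`) -/

open MeasureTheory Set Filter Topology

noncomputable section

namespace LEP.S1

open LEP.SECG

theorem mm_three (i : Fin 2) : 3 ≤ mm i := by
  fin_cases i <;> simp [mm]

/-- lower constant for the geometric sum. -/
def cS (i : Fin 2) : ℝ := Real.cos (((mm i : ℝ) - 1) * Real.pi / (2 * mm i))

theorem cS_pos (i : Fin 2) : 0 < cS i := by
  have hm : (3 : ℝ) ≤ mm i := by exact_mod_cast mm_three i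
  have hpi := Real.pi_pos
  apply Real.cos_pos_of_mem_Ioo
  constructor
  · have : 0 ≤ ((mm i : ℝ) - 1) * Real.pi / (2 * mm i) := by
      apply div_nonneg
      · exact mul_nonneg (by linarith) hpi.le
      · linarith
    linarith
  · rw [div_lt_iff₀ (by linarith)]
    nlinarith

theorem polar_re (x : ℂ) (n : ℕ) (c : ℝ) : (Complex.exp ((c : ℂ) * Complex.I) * x ^ n).re =
    ‖x‖ ^ n * Real.cos (n * x.arg + c) := by
  conv_lhs => rw [← Complex.norm_mul_exp_arg_mul_I x]
  rw [mul_pow, ← Complex.exp_nat_mul, mul_left_comm, ← Complex.exp_add]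
  have : (c : ℂ) * Complex.I + n * (x.arg * Complex.I) = ((n * x.arg + c : ℝ) : ℂ) * Complex.I := by
    push_cast
    ring
  rw [this, ← Complex.ofReal_pow, Complex.re_ofReal_mul, Complex.exp_ofReal_mul_I_re]

theorem polar_re2 (x y : ℂ) (n k : ℕ) (c : ℝ) :
    (Complex.exp ((c : ℂ) * Complex.I) * (x ^ n * y ^ k)).re =
    ‖x‖ ^ n * ‖y‖ ^ k * Real.cos (n * x.arg + k * y.arg + c) := by
  conv_lhs => rw [← Complex.norm_mul_exp_arg_mul_I x, ← Complex.norm_mul_exp_arg_mul_I y]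
  rw [mul_pow, mul_pow, ← Complex.exp_nat_mul, ← Complex.exp_nat_mul]
  have : Complex.exp ((c : ℂ) * Complex.I) * ((‖x‖ : ℂ) ^ n * Complex.exp (n * (x.arg *
      Complex.I)) * ((‖y‖ : ℂ) ^ k * Complex.exp (k * (y.arg * Complex.I)))) =
      ((‖x‖ ^ n * ‖y‖ ^ k : ℝ) : ℂ) *
        Complex.exp (((n * x.arg + k * y.arg + c : ℝ) : ℂ) * Complex.I) := by
    have h : (((n * x.arg + k * y.arg + c : ℝ) : ℂ) * Complex.I) =
        n * (x.arg * Complex.I) + k * (y.arg * Complex.I) + c * Complex.I := by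
      push_cast
      ring
    rw [h, Complex.exp_add, Complex.exp_add]
    push_cast
    ring
  rw [this, Complex.re_ofReal_mul, Complex.exp_ofReal_mul_I_re]

/-- lower bound of the geometric sum. -/
theorem S_lower (i : Fin 2) {x y : ℂ} (hx : x ∈ Arm i) (hy : y ∈ Arm i) :
    cS i * max ‖x‖ ‖y‖ ^ (mm i - 1) ≤ ‖S i x y‖ := by
  have hm : (3 : ℝ) ≤ mm i := by exact_mod_cast mm_three i
  have hm3 := mm_three i
  have hpi := Real.pi_pos
  have hc := cS_pos i
  set m := mm i with hmd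
  -- middle direction
  set θ : ℝ := -((m : ℝ) - 1) * (al i + be i) / 2 with hθ
  have hnorm : ‖S i x y‖ = ‖Complex.exp ((θ : ℂ) * Complex.I) *
      ∑ j ∈ Finset.range m, x ^ j * y ^ (m - 1 - j)‖ := by
    unfold S
    rw [norm_mul, norm_mul, norm_pow, Complex.norm_exp_ofReal_mul_I]
    have : -(al i : ℂ) * Complex.I = ((-al i : ℝ) : ℂ) * Complex.I := by push_cast; ring
    rw [this, Complex.norm_exp_ofReal_mul_I, one_pow]
  have hterm : ∀ j ∈ Finset.range m, cS i * (‖x‖ ^ j * ‖y‖ ^ (m - 1 - j)) ≤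
      (Complex.exp ((θ : ℂ) * Complex.I) * (x ^ j * y ^ (m - 1 - j))).re := by
    intro j hj
    have hj' := Finset.mem_range.1 hj
    rw [polar_re2, mul_comm (cS i)]
    apply mul_le_mul_of_nonneg_left _ (by positivity)
    have hcast : ((m - 1 - j : ℕ) : ℝ) = (m : ℝ) - 1 - j := by
      rw [Nat.cast_sub (by omega), Nat.cast_sub (by omega)]
      simp
    rw [hcast]
    have hjn : (0 : ℝ) ≤ j := Nat.cast_nonneg _
    have hjm : (j : ℝ) ≤ m - 1 := by
      have : j + 1 ≤ m := hj'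
      have : ((j + 1 : ℕ) : ℝ) ≤ m := by exact_mod_cast this
      push_cast at this
      linarith
    have hbe : be i = al i + Real.pi / m := rfl
    have hx1 := hx.2.1
    have hx2 := hx.2.2
    have hy1 := hy.2.1
    have hy2 := hy.2.2
    have habs : |(j : ℝ) * x.arg + ((m : ℝ) - 1 - j) * y.arg + θ| ≤
        ((m : ℝ) - 1) * Real.pi / (2 * m) := by
      have e1 : (j : ℝ) * x.arg + ((m : ℝ) - 1 - j) * y.arg + θ =
          j * (x.arg - (al i + be i) / 2) + ((m : ℝ) - 1 - j) * (y.arg - (al i + be i) / 2) := by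
        rw [hθ]; ring
      have e2 : ((m : ℝ) - 1) * Real.pi / (2 * m) = ((m : ℝ) - 1) * ((be i - al i) / 2) := by
        rw [hbe]; field_simp; ring
      rw [e1, e2, abs_le]
      constructor <;> nlinarith
    unfold cS
    rw [← hmd, ← Real.cos_abs ((j : ℝ) * x.arg + ((m : ℝ) - 1 - j) * y.arg + θ)]
    apply Real.cos_le_cos_of_nonneg_of_le_pi (abs_nonneg _) _ habs
    rw [div_le_iff₀ (by linarith)]
    nlinarith
  have hsum : cS i * max ‖x‖ ‖y‖ ^ (m - 1) ≤
      ∑ j ∈ Finset.range m, cS i * (‖x‖ ^ j * ‖y‖ ^ (m - 1 - j)) := by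
    rcases le_total ‖x‖ ‖y‖ with h | h
    · rw [max_eq_right h]
      have h0 : (0 : ℕ) ∈ Finset.range m := Finset.mem_range.2 (by omega)
      have := Finset.single_le_sum (f := fun j => cS i * (‖x‖ ^ j * ‖y‖ ^ (m - 1 - j)))
        (fun j _ => by positivity) h0
      simpa using this
    · rw [max_eq_left h]
      have h0 : (m - 1 : ℕ) ∈ Finset.range m := Finset.mem_range.2 (by omega)
      have := Finset.single_le_sum (f := fun j => cS i * (‖x‖ ^ j * ‖y‖ ^ (m - 1 - j)))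
        (fun j _ => by positivity) h0
      simpa using this
  calc cS i * max ‖x‖ ‖y‖ ^ (m - 1) ≤
      ∑ j ∈ Finset.range m, cS i * (‖x‖ ^ j * ‖y‖ ^ (m - 1 - j)) := hsum
    _ ≤ ∑ j ∈ Finset.range m,
        (Complex.exp ((θ : ℂ) * Complex.I) * (x ^ j * y ^ (m - 1 - j))).re :=
        Finset.sum_le_sum hterm
    _ = (Complex.exp ((θ : ℂ) * Complex.I) *
        ∑ j ∈ Finset.range m, x ^ j * y ^ (m - 1 - j)).re := by
        rw [Finset.mul_sum, Complex.re_sum]
    _ ≤ _ := by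
        rw [hnorm]
        exact Complex.re_le_norm _

/-- the argument of the logarithm. -/
def uu (i : Fin 2) (x y : ℂ) : ℝ := 4 * (pw i x).im * (pw i y).im / ‖pw i x - pw i y‖ ^ 2

theorem log_bound {u : ℝ} (hu : 0 ≤ u) : Real.log (1 + u) ≤ 5 / 2 * u ^ (2 / 5 : ℝ) := by
  have h1 : Real.log (1 + u) = 5 / 2 * Real.log ((1 + u) ^ (2 / 5 : ℝ)) := by
    rw [Real.log_rpow (by linarith)]
    ring
  have h2 : (1 + u) ^ (2 / 5 : ℝ) ≤ 1 + u ^ (2 / 5 : ℝ) := by
    have := Real.rpow_add_le_add_rpow (p := (2 / 5 : ℝ)) (a := 1) (b := u) (by norm_num) hu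
      (by norm_num) (by norm_num)
    simpa using this
  have h3 := Real.log_le_sub_one_of_pos (x := (1 + u) ^ (2 / 5 : ℝ)) (by positivity)
  rw [h1]
  linarith

theorem GA_sq_le {i : Fin 2} {x y : ℂ} (hx : x ∈ Arm i) (hy : y ∈ Arm i) :
    GA i x y ^ 2 ≤ uu i x y ^ (4 / 5 : ℝ) := by
  have hX := im_pos hx
  have hY := im_pos hy
  have hu : 0 ≤ uu i x y := by
    unfold uu
    positivity
  have h1 := log_bound hu
  have h0 : 0 ≤ Real.log (1 + uu i x y) := Real.log_nonneg (by linarith)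
  have hpi := Real.pi_gt_three
  have h2 : GA i x y = (1 / (4 * Real.pi)) * Real.log (1 + uu i x y) := rfl
  have h3 : (1 / (4 * Real.pi)) ≤ 2 / 5 := by
    rw [div_le_div_iff₀ (by positivity) (by norm_num)]
    linarith
  have h4 : GA i x y ≤ uu i x y ^ (2 / 5 : ℝ) := by
    rw [h2]
    calc (1 / (4 * Real.pi)) * Real.log (1 + uu i x y) ≤ 2 / 5 * Real.log (1 + uu i x y) :=
          mul_le_mul_of_nonneg_right h3 h0
      _ ≤ 2 / 5 * (5 / 2 * uu i x y ^ (2 / 5 : ℝ)) := by linarith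
      _ = _ := by ring
  have h5 : 0 ≤ GA i x y := by
    rw [h2]; positivity
  calc GA i x y ^ 2 ≤ (uu i x y ^ (2 / 5 : ℝ)) ^ 2 := pow_le_pow_left₀ h5 h4 2
    _ = _ := by
      rw [← Real.rpow_natCast, ← Real.rpow_mul hu]
      norm_num

/-- the radial majorant. -/
def PhiR (r : ℝ) : ℝ := ((1 + r) * r ^ 2) ^ (-(4 / 5) : ℝ)

theorem PhiR_nonneg {r : ℝ} (hr : 0 ≤ r) : 0 ≤ PhiR r := by
  unfold PhiR
  positivity

theorem PhiR_meas : Measurable PhiR := by
  unfold PhiR
  fun_prop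

theorem PhiR_int : Integrable (fun z : ℂ => PhiR ‖z‖) := by
  rw [integrable_fun_norm_addHaar (volume : Measure ℂ) (f := PhiR)]
  have hfin : Module.finrank ℝ ℂ - 1 = 1 := by rw [Complex.finrank_real_complex]
  rw [hfin]
  have hmeas : Measurable (fun y : ℝ => y ^ 1 • PhiR y) := by
    have := PhiR_meas
    simp only [smul_eq_mul]
    fun_prop
  rw [← Ioc_union_Ioi_eq_Ioi (zero_le_one' ℝ)]
  refine IntegrableOn.union ?_ ?_
  · have h1 : IntegrableOn (fun x : ℝ => x ^ (-(3 / 5) : ℝ)) (Ioc 0 1) := by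
      rw [← intervalIntegrable_iff_integrableOn_Ioc_of_le zero_le_one]
      exact intervalIntegral.intervalIntegrable_rpow' (by norm_num)
    refine Integrable.mono' h1 hmeas.aestronglyMeasurable ?_
    refine (ae_restrict_iff' measurableSet_Ioc).2 (ae_of_all _ fun r hr => ?_)
    have hr0 : 0 < r := hr.1
    rw [smul_eq_mul, pow_one, Real.norm_of_nonneg (mul_nonneg hr0.le (PhiR_nonneg hr0.le))]
    have h2 : PhiR r ≤ (r ^ 2) ^ (-(4 / 5) : ℝ) := by
      unfold PhiR
      apply Real.rpow_le_rpow_of_nonpos (by positivity) _ (by norm_num)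
      nlinarith [sq_nonneg r]
    have h3 : (r ^ 2) ^ (-(4 / 5) : ℝ) = r ^ (-(8 / 5) : ℝ) := by
      rw [← Real.rpow_natCast, ← Real.rpow_mul hr0.le]
      norm_num
    calc r * PhiR r ≤ r * r ^ (-(8 / 5) : ℝ) := by
          rw [← h3]; exact mul_le_mul_of_nonneg_left h2 hr0.le
      _ = r ^ (-(3 / 5) : ℝ) := by
          nth_rewrite 1 [← Real.rpow_one r]
          rw [← Real.rpow_add hr0]
          norm_num
  · have h1 : IntegrableOn (fun x : ℝ => x ^ (-(7 / 5) : ℝ)) (Ioi 1) :=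
      integrableOn_Ioi_rpow_of_lt (by norm_num) zero_lt_one
    refine Integrable.mono' h1 hmeas.aestronglyMeasurable ?_
    refine (ae_restrict_iff' measurableSet_Ioi).2 (ae_of_all _ fun r hr => ?_)
    have hr1 : 1 < r := hr
    have hr0 : 0 < r := by linarith
    rw [smul_eq_mul, pow_one, Real.norm_of_nonneg (mul_nonneg hr0.le (PhiR_nonneg hr0.le))]
    have h2 : PhiR r ≤ (r ^ 3) ^ (-(4 / 5) : ℝ) := by
      unfold PhiR
      apply Real.rpow_le_rpow_of_nonpos (by positivity) _ (by norm_num)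
      nlinarith [sq_nonneg r]
    have h3 : (r ^ 3) ^ (-(4 / 5) : ℝ) = r ^ (-(12 / 5) : ℝ) := by
      rw [← Real.rpow_natCast, ← Real.rpow_mul hr0.le]
      norm_num
    calc r * PhiR r ≤ r * r ^ (-(12 / 5) : ℝ) := by
          rw [← h3]; exact mul_le_mul_of_nonneg_left h2 hr0.le
      _ = r ^ (-(7 / 5) : ℝ) := by
          nth_rewrite 1 [← Real.rpow_one r]
          rw [← Real.rpow_add hr0]
          norm_num

theorem uu_le {i : Fin 2} {x y : ℂ} (hx : x ∈ Arm i) (hx1 : ‖x‖ = 1) (hy : y ∈ Arm i) :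
    uu i x y ≤ 16 / cS i ^ 2 * (pw i x).im * ((1 + ‖x - y‖) * ‖x - y‖ ^ 2)⁻¹ := by
  have hX := im_pos hx
  have hY := im_pos hy
  have hc := cS_pos i
  have hm3 := mm_three i
  by_cases hxy : x = y
  · subst hxy
    simp [uu]
  · have hr : 0 < ‖x - y‖ := norm_pos_iff.2 (sub_ne_zero.2 hxy)
    set M : ℝ := max ‖x‖ ‖y‖ with hM
    have hM1 : 1 ≤ M := by rw [hM, ← hx1]; exact le_max_left _ _
    have hM0 : 0 < M := by linarith
    have hMr : (1 + ‖x - y‖) / 4 ≤ M := by
      have h1 : ‖x - y‖ ≤ ‖x‖ + ‖y‖ := norm_sub_le _ _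
      have h2 : ‖y‖ ≤ M := le_max_right _ _
      rw [hx1] at h1
      linarith
    have hS := S_lower i hx hy
    rw [← hM] at hS
    have hXY : ‖pw i x - pw i y‖ = ‖S i x y‖ * ‖x - y‖ := by rw [pw_sub, norm_mul]
    have hlow : cS i * M ^ (mm i - 1) * ‖x - y‖ ≤ ‖pw i x - pw i y‖ := by
      rw [hXY]
      exact mul_le_mul_of_nonneg_right hS hr.le
    have hYM : (pw i y).im ≤ M ^ mm i := by
      calc (pw i y).im ≤ ‖pw i y‖ := Complex.im_le_norm _
        _ = ‖y‖ ^ mm i := pw_norm i y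
        _ ≤ M ^ mm i := pow_le_pow_left₀ (norm_nonneg _) (le_max_right _ _) _
    unfold uu
    have hpow : M ^ mm i * M ≤ (M ^ (mm i - 1)) ^ 2 := by
      rw [← pow_succ, ← pow_mul]
      exact pow_le_pow_right₀ hM1 (by omega)
    calc 4 * (pw i x).im * (pw i y).im / ‖pw i x - pw i y‖ ^ 2 ≤
        4 * (pw i x).im * M ^ mm i / (cS i * M ^ (mm i - 1) * ‖x - y‖) ^ 2 := by
          apply div_le_div₀ (by positivity) _ (by positivity)
            (pow_le_pow_left₀ (by positivity) hlow 2)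
          exact mul_le_mul_of_nonneg_left hYM (by positivity)
      _ ≤ 16 / cS i ^ 2 * (pw i x).im * ((1 + ‖x - y‖) * ‖x - y‖ ^ 2)⁻¹ := by
          rw [← div_eq_mul_inv, div_le_div_iff₀ (by positivity) (by positivity)]
          have e : 16 / cS i ^ 2 * (pw i x).im * (cS i * M ^ (mm i - 1) * ‖x - y‖) ^ 2 =
              16 * (pw i x).im * ((M ^ (mm i - 1)) ^ 2 * ‖x - y‖ ^ 2) := by
            field_simp
          rw [e]
          have h5 : M ^ mm i * (1 + ‖x - y‖) ≤ 4 * (M ^ (mm i - 1)) ^ 2 := by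
            have : M ^ mm i * (1 + ‖x - y‖) ≤ M ^ mm i * (4 * M) :=
              mul_le_mul_of_nonneg_left (by linarith) (by positivity)
            nlinarith
          have h6 : 0 ≤ 4 * (pw i x).im * ‖x - y‖ ^ 2 := by positivity
          calc 4 * (pw i x).im * M ^ mm i * ((1 + ‖x - y‖) * ‖x - y‖ ^ 2) =
              (4 * (pw i x).im * ‖x - y‖ ^ 2) * (M ^ mm i * (1 + ‖x - y‖)) := by ring
            _ ≤ (4 * (pw i x).im * ‖x - y‖ ^ 2) * (4 * (M ^ (mm i - 1)) ^ 2) :=
              mul_le_mul_of_nonneg_left h5 h6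
            _ = _ := by ring

/-- the constant. -/
def cK (i : Fin 2) : ℝ := (16 / cS i ^ 2) ^ (4 / 5 : ℝ)

theorem cK_pos (i : Fin 2) : 0 < cK i := by
  have := cS_pos i
  unfold cK
  positivity

theorem GA_sq_le' {i : Fin 2} {x y : ℂ} (hx : x ∈ Arm i) (hx1 : ‖x‖ = 1) (hy : y ∈ Arm i) :
    GA i x y ^ 2 ≤ cK i * (pw i x).im ^ (4 / 5 : ℝ) * PhiR ‖x - y‖ := by
  have hX := im_pos hx
  have hY := im_pos hy
  have hc := cS_pos i
  have hu : 0 ≤ uu i x y := by
    unfold uu
    positivity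
  refine (GA_sq_le hx hy).trans ?_
  refine (Real.rpow_le_rpow hu (uu_le hx hx1 hy) (by norm_num)).trans ?_
  rw [Real.mul_rpow (by positivity) (by positivity), Real.mul_rpow (by positivity) hX.le,
    Real.inv_rpow (by positivity), ← Real.rpow_neg (by positivity)]
  exact le_refl _

theorem GA_meas (i : Fin 2) (x : ℂ) : Measurable (fun y => GA i x y) := by
  have h := (pw_cont i).measurable
  unfold GA
  fun_prop

theorem arm_meas (i : Fin 2) : MeasurableSet (Arm i) := (arm_open i).measurableSet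

/-- the total mass of the majorant. -/
def JJ : ℝ := ∫ z : ℂ, PhiR ‖z‖

theorem int_unit {i : Fin 2} {x : ℂ} (hx : x ∈ Arm i) (hx1 : ‖x‖ = 1) :
    IntegrableOn (fun y => GA i x y ^ 2) (Arm i) ∧
      ∫ y in Arm i, GA i x y ^ 2 ≤ cK i * JJ * (pw i x).im ^ (4 / 5 : ℝ) := by
  have hX := im_pos hx
  have hk := cK_pos i
  have hmaj : Integrable (fun y : ℂ => cK i * (pw i x).im ^ (4 / 5 : ℝ) * PhiR ‖x - y‖) :=
    (PhiR_int.comp_sub_left x).const_mul _
  have hint : IntegrableOn (fun y => GA i x y ^ 2) (Arm i) := by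
    refine Integrable.mono' hmaj.integrableOn
      ((GA_meas i x).pow_const 2).aestronglyMeasurable ?_
    refine (ae_restrict_iff' (arm_meas i)).2 (ae_of_all _ fun y hy => ?_)
    rw [Real.norm_of_nonneg (sq_nonneg _)]
    exact GA_sq_le' hx hx1 hy
  refine ⟨hint, ?_⟩
  calc ∫ y in Arm i, GA i x y ^ 2 ≤
      ∫ y in Arm i, cK i * (pw i x).im ^ (4 / 5 : ℝ) * PhiR ‖x - y‖ :=
        setIntegral_mono_on hint hmaj.integrableOn (arm_meas i)
          (fun y hy => GA_sq_le' hx hx1 hy)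
    _ ≤ ∫ y, cK i * (pw i x).im ^ (4 / 5 : ℝ) * PhiR ‖x - y‖ := by
        refine setIntegral_le_integral hmaj (ae_of_all _ fun y => ?_)
        have := PhiR_nonneg (norm_nonneg (x - y))
        simp only [Pi.zero_apply]
        positivity
    _ = cK i * JJ * (pw i x).im ^ (4 / 5 : ℝ) := by
        rw [integral_const_mul]
        have : ∫ y : ℂ, PhiR ‖x - y‖ = JJ := by
          unfold JJ
          exact integral_sub_left_eq_self (fun z : ℂ => PhiR ‖z‖) volume x
        rw [this]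
        ring

/-! ### angles -/

theorem ex_norm (t : ℝ) : ‖ex t‖ = 1 := by
  unfold ex
  exact Complex.norm_exp_ofReal_mul_I t

theorem ex_arg {t : ℝ} (h1 : -Real.pi < t) (h2 : t ≤ Real.pi) : (ex t).arg = t := by
  unfold ex
  rw [Complex.arg_exp_mul_I]
  exact (toIocMod_eq_self Real.two_pi_pos).2 ⟨h1, by linarith⟩

theorem ex_arg' {i : Fin 2} {t : ℝ} (h1 : al i ≤ t) (h2 : t ≤ be i) : (ex t).arg = t :=
  ex_arg (by linarith [al_pos i, Real.pi_pos]) (by linarith [be_lt i, Real.pi_pos])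

theorem ex_mem {i : Fin 2} {t : ℝ} (h : t ∈ Ioo (al i) (be i)) : ex t ∈ Arm i := by
  refine ⟨?_, ?_, ?_⟩
  · rw [← norm_pos_iff, ex_norm]; norm_num
  · rw [ex_arg' h.1.le h.2.le]; exact h.1
  · rw [ex_arg' h.1.le h.2.le]; exact h.2

theorem ex_im (i : Fin 2) {t : ℝ} (h1 : al i ≤ t) (h2 : t ≤ be i) :
    (pw i (ex t)).im = Real.sin (mm i * (t - al i)) := by
  rw [pw_im, ex_norm, ex_arg' h1 h2, one_pow, one_mul]

theorem arm_polar {i : Fin 2} {x : ℂ} (hx : x ∈ Arm i) :
    x.arg ∈ Ioo (al i) (be i) ∧ x = (‖x‖ : ℂ) * ex x.arg :=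
  ⟨⟨hx.2.1, hx.2.2⟩, (Complex.norm_mul_exp_arg_mul_I x).symm⟩

theorem psi_smul {r : ℝ} (hr : 0 < r) (x : ℂ) : psi ((r : ℂ) * x) = r * psi x := by
  unfold psi
  rw [Complex.re_ofReal_mul, Complex.im_ofReal_mul, norm_mul, Complex.norm_real,
    Real.norm_of_nonneg hr.le]
  by_cases h : ‖x‖ = 0
  · simp [h]
  · field_simp

/-- **scaling** of the integral. -/
theorem scale (h0 : ST_SEC0) {i : Fin 2} {x : ℂ} (_hx : x ∈ Arm i) {r : ℝ} (hr : 0 < r)
    (hint : IntegrableOn (fun y => GA i x y ^ 2) (Arm i)) :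
    IntegrableOn (fun y => GA i (r * x) y ^ 2) (Arm i) ∧
      ∫ y in Arm i, GA i (r * x) y ^ 2 = r ^ 2 * ∫ y in Arm i, GA i x y ^ 2 := by
  obtain ⟨_, _, _, hsc, harm, _, _⟩ := h0
  have hri : 0 < r⁻¹ := inv_pos.2 hr
  have hmem : ∀ y : ℂ, ((r⁻¹ : ℝ) • y ∈ Arm i ↔ y ∈ Arm i) := by
    intro y
    constructor
    · intro h
      have := harm i r hr _ h
      rwa [Complex.real_smul, ← mul_assoc, ← Complex.ofReal_mul, mul_inv_cancel₀ hr.ne',
        Complex.ofReal_one, one_mul] at this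
    · intro h
      rw [Complex.real_smul]
      exact harm i r⁻¹ hri _ h
  have hfun : ∀ y : ℂ, (Arm i).indicator (fun y => GA i (r * x) y ^ 2) y =
      (fun z => (Arm i).indicator (fun y => GA i x y ^ 2) z) ((r⁻¹ : ℝ) • y) := by
    intro y
    by_cases hy : y ∈ Arm i
    · rw [indicator_of_mem hy]
      show _ = (Arm i).indicator (fun y => GA i x y ^ 2) ((r⁻¹ : ℝ) • y)
      rw [indicator_of_mem ((hmem y).2 hy)]
      have h1 : GA i (r * x) y = GA i x ((r⁻¹ : ℝ) • y) := by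
        rw [← hsc i r hr x ((r⁻¹ : ℝ) • y), Complex.real_smul, ← mul_assoc,
          ← Complex.ofReal_mul, mul_inv_cancel₀ hr.ne', Complex.ofReal_one, one_mul]
      rw [h1]
    · rw [indicator_of_notMem hy]
      show _ = (Arm i).indicator (fun y => GA i x y ^ 2) ((r⁻¹ : ℝ) • y)
      rw [indicator_of_notMem (fun h => hy ((hmem y).1 h))]
  have hI : Integrable ((Arm i).indicator (fun y => GA i x y ^ 2)) :=
    (integrable_indicator_iff (arm_meas i)).2 hint
  have hfe : (Arm i).indicator (fun y => GA i (r * x) y ^ 2) =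
      fun y => (fun z => (Arm i).indicator (fun y => GA i x y ^ 2) z) ((r⁻¹ : ℝ) • y) :=
    funext hfun
  constructor
  · rw [← integrable_indicator_iff (arm_meas i), hfe]
    exact hI.comp_smul hri.ne'
  · rw [← integral_indicator (arm_meas i), hfe,
      Measure.integral_comp_inv_smul_of_nonneg volume _ hr.le, Complex.finrank_real_complex,
      integral_indicator (arm_meas i), smul_eq_mul]

theorem psi_ex (h0 : ST_SEC0) {i : Fin 2} {t : ℝ} (h : t ∈ Ioo (al i) (be i)) :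
    1 / 20 ≤ psi (ex t) ∧ psi (ex t) ≤ 1 / 2 := by
  have := h0.1 i (ex t) (ex_mem h)
  rw [ex_norm] at this
  exact ⟨this.2.1, this.2.2⟩

theorem JJ_nonneg : 0 ≤ JJ := integral_nonneg fun z => PhiR_nonneg (norm_nonneg z)

/-- upper bound of `gam`. -/
theorem gam_le (h0 : ST_SEC0) {i : Fin 2} {t : ℝ} (h : t ∈ Ioo (al i) (be i)) :
    gam i t ≤ 400 * (cK i * JJ) * (Real.sin (mm i * (t - al i))) ^ (4 / 5 : ℝ) := by
  have h1 := (int_unit (ex_mem h) (ex_norm t)).2
  rw [ex_im i h.1.le h.2.le] at h1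
  have h2 := psi_ex h0 h
  have hp : 0 < psi (ex t) := by linarith
  unfold gam
  rw [div_le_iff₀ (by positivity)]
  have hs : 0 ≤ Real.sin (mm i * (t - al i)) := by
    have := ang h.1 h.2
    exact (Real.sin_pos_of_pos_of_lt_pi this.1 this.2).le
  have hA : 0 ≤ cK i * JJ * (Real.sin (mm i * (t - al i))) ^ (4 / 5 : ℝ) :=
    mul_nonneg (mul_nonneg (cK_pos i).le JJ_nonneg) (Real.rpow_nonneg hs _)
  have h3 : (1 / 400 : ℝ) ≤ psi (ex t) ^ 2 := by nlinarith
  nlinarith

theorem gam_nonneg (i : Fin 2) (t : ℝ) : 0 ≤ gam i t := by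
  unfold gam
  apply div_nonneg _ (sq_nonneg _)
  exact integral_nonneg fun y => sq_nonneg _

theorem gam_bdd (h0 : ST_SEC0) (i : Fin 2) : BddAbove (gam i '' Ioo (al i) (be i)) := by
  refine ⟨400 * (cK i * JJ), ?_⟩
  rintro _ ⟨t, ht, rfl⟩
  refine (gam_le h0 ht).trans ?_
  have h1 : 0 ≤ 400 * (cK i * JJ) := by
    have := mul_nonneg (cK_pos i).le JJ_nonneg
    linarith
  have hs : 0 ≤ Real.sin (mm i * (t - al i)) := by
    have := ang ht.1 ht.2
    exact (Real.sin_pos_of_pos_of_lt_pi this.1 this.2).le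
  have h2 : (Real.sin (mm i * (t - al i))) ^ (4 / 5 : ℝ) ≤ 1 :=
    Real.rpow_le_one hs (Real.sin_le_one _) (by norm_num)
  nlinarith

/-- lower bound of `gam` on compact sets of angles. -/
theorem gam_low (h0 : ST_SEC0) (i : Fin 2) {a b : ℝ} (ha : al i < a) (hb : b < be i) :
    ∃ c : ℝ, 0 < c ∧ ∀ t ∈ Icc a b, c ≤ gam i t := by
  have hsub : Icc a b ⊆ Ioo (al i) (be i) := fun t ht =>
    ⟨lt_of_lt_of_le ha ht.1, lt_of_le_of_lt ht.2 hb⟩
  have hexc : Continuous ex := by
    unfold ex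
    fun_prop
  have hK : IsCompact (ex '' Icc a b) := isCompact_Icc.image hexc
  have hKA : ex '' Icc a b ⊆ Arm i := by
    rintro _ ⟨t, ht, rfl⟩
    exact ex_mem (hsub ht)
  obtain ⟨δ, hδ, hδA⟩ := hK.exists_cthickening_subset_open (arm_open i) hKA
  have hK2 : IsCompact (Metric.cthickening δ (ex '' Icc a b)) := hK.cthickening
  rcases (Icc a b).eq_empty_or_nonempty with hemp | ⟨t0, ht0⟩
  · exact ⟨1, one_pos, fun t ht => by rw [hemp] at ht; exact absurd ht (notMem_empty t)⟩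
  have hne : (Metric.cthickening δ (ex '' Icc a b)).Nonempty :=
    ⟨ex t0, Metric.self_subset_cthickening _ ⟨t0, ht0, rfl⟩⟩
  -- positive lower bound of the imaginary part
  obtain ⟨z0, hz0, hz0'⟩ := hK2.exists_isMinOn hne
    (Complex.continuous_im.comp (pw_cont i)).continuousOn
  set c1 : ℝ := (pw i z0).im with hc1
  have hc1p : 0 < c1 := im_pos (hδA hz0)
  have hc1m : ∀ y ∈ Metric.cthickening δ (ex '' Icc a b), c1 ≤ (pw i y).im := by
    intro y hy
    exact hz0' hy
  -- upper bound of the norm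
  obtain ⟨C1, hC1⟩ := hK2.exists_bound_of_continuousOn (pw_cont i).continuousOn
  have hC1p : 0 < C1 := by
    have h1 := hC1 z0 hz0
    have h2 : c1 ≤ ‖pw i z0‖ := Complex.im_le_norm _
    linarith
  set c2 : ℝ := (1 / (4 * Real.pi)) * Real.log (1 + 4 * c1 * c1 / (2 * C1) ^ 2) with hc2
  have hpi := Real.pi_pos
  have hc2p : 0 < c2 := by
    rw [hc2]
    apply mul_pos (by positivity)
    apply Real.log_pos
    have : 0 < 4 * c1 * c1 / (2 * C1) ^ 2 := by positivity
    linarith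
  have hball : ∀ t ∈ Icc a b, ∀ y ∈ Metric.ball (ex t) δ \ {ex t}, y ∈ Arm i ∧
      c2 ≤ GA i (ex t) y := by
    intro t ht y hy
    have hxt : ex t ∈ Metric.cthickening δ (ex '' Icc a b) :=
      Metric.self_subset_cthickening _ ⟨t, ht, rfl⟩
    have hyt : y ∈ Metric.cthickening δ (ex '' Icc a b) :=
      Metric.mem_cthickening_of_dist_le y (ex t) δ _ ⟨t, ht, rfl⟩ (le_of_lt hy.1)
    refine ⟨hδA hyt, ?_⟩
    have hne' : pw i (ex t) ≠ pw i y := by
      intro h
      exact hy.2 (pw_inj (hKA ⟨t, ht, rfl⟩) (hδA hyt) h).symm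
    have hn : 0 < ‖pw i (ex t) - pw i y‖ := norm_pos_iff.2 (sub_ne_zero.2 hne')
    have hn2 : ‖pw i (ex t) - pw i y‖ ≤ 2 * C1 := by
      have := norm_sub_le (pw i (ex t)) (pw i y)
      have h1 := hC1 _ hxt
      have h2 := hC1 _ hyt
      linarith
    rw [hc2]
    unfold GA
    apply mul_le_mul_of_nonneg_left _ (by positivity)
    apply Real.log_le_log (by positivity)
    have h3 := hc1m _ hxt
    have h4 := hc1m _ hyt
    have h5 : 4 * c1 * c1 ≤ 4 * (pw i (ex t)).im * (pw i y).im := by nlinarith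
    have h6 : ‖pw i (ex t) - pw i y‖ ^ 2 ≤ (2 * C1) ^ 2 :=
      pow_le_pow_left₀ hn.le hn2 2
    have h7 : 4 * c1 * c1 / (2 * C1) ^ 2 ≤
        4 * (pw i (ex t)).im * (pw i y).im / ‖pw i (ex t) - pw i y‖ ^ 2 :=
      div_le_div₀ (by nlinarith) h5 (by positivity) h6
    linarith
  have hvol : ∀ t, (volume : Measure ℂ).real (Metric.ball (ex t) δ \ {ex t}) =
      (volume : Measure ℂ).real (Metric.ball 0 δ) := by
    intro t
    rw [measureReal_def, measureReal_def, measure_sdiff_null (measure_singleton _),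
      Measure.addHaar_ball_center]
  have hv : 0 < (volume : Measure ℂ).real (Metric.ball 0 δ) := by
    rw [measureReal_def]
    exact ENNReal.toReal_pos (Metric.measure_ball_pos _ _ hδ).ne' measure_ball_lt_top.ne
  refine ⟨4 * (c2 ^ 2 * (volume : Measure ℂ).real (Metric.ball 0 δ)), by positivity, ?_⟩
  intro t ht
  have hint := (int_unit (ex_mem (hsub ht)) (ex_norm t)).1
  have h1 : c2 ^ 2 * (volume : Measure ℂ).real (Metric.ball 0 δ) ≤
      ∫ y in Arm i, GA i (ex t) y ^ 2 := by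
    have hsubA : Metric.ball (ex t) δ \ {ex t} ⊆ Arm i := fun y hy => (hball t ht y hy).1
    have hm : MeasurableSet (Metric.ball (ex t) δ \ {ex t}) :=
      measurableSet_ball.diff (measurableSet_singleton _)
    calc c2 ^ 2 * (volume : Measure ℂ).real (Metric.ball 0 δ) =
        ∫ y in Metric.ball (ex t) δ \ {ex t}, c2 ^ 2 := by
          rw [setIntegral_const, hvol t, smul_eq_mul, mul_comm]
      _ ≤ ∫ y in Metric.ball (ex t) δ \ {ex t}, GA i (ex t) y ^ 2 := by
          refine setIntegral_mono_on ?_ (hint.mono_set hsubA) hm (fun y hy => ?_)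
          · refine integrableOn_const ?_
            exact ((measure_mono sdiff_subset).trans_lt measure_ball_lt_top).ne
          · exact pow_le_pow_left₀ hc2p.le (hball t ht y hy).2 2
      _ ≤ ∫ y in Arm i, GA i (ex t) y ^ 2 := by
          refine setIntegral_mono_set hint (ae_of_all _ fun y => sq_nonneg _) ?_
          exact hsubA.eventuallyLE
  have h2 := psi_ex h0 (hsub ht)
  have hp : 0 < psi (ex t) := by linarith
  unfold gam
  rw [le_div_iff₀ (by positivity)]
  have h3 : psi (ex t) ^ 2 ≤ 1 / 4 := by nlinarith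
  have h4 : 0 ≤ c2 ^ 2 * (volume : Measure ℂ).real (Metric.ball 0 δ) := by positivity
  nlinarith

theorem gs_pos (h0 : ST_SEC0) (i : Fin 2) : 0 < gs i := by
  have hlt := al_lt_be i
  set t : ℝ := (al i + be i) / 2 with ht
  have h1 : al i < t := by rw [ht]; linarith
  have h2 : t < be i := by rw [ht]; linarith
  obtain ⟨c, hc, h⟩ := gam_low h0 i h1 h2
  have h3 := h t ⟨le_refl _, le_refl _⟩
  have h4 : gam i t ≤ gs i := le_csSup (gam_bdd h0 i) ⟨t, ⟨h1, h2⟩, rfl⟩
  linarith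

/-- near the ends `gam` is small. -/
theorem ends (h0 : ST_SEC0) (i : Fin 2) : ∃ δ : ℝ, 0 < δ ∧ δ < (be i - al i) / 4 ∧
    ∀ t ∈ Ioo (al i) (be i), t ∉ Icc (al i + δ) (be i - δ) → gam i t ≤ gs i / 2 := by
  have hlt := al_lt_be i
  have hg := gs_pos h0 i
  have hm : (3 : ℝ) ≤ mm i := by exact_mod_cast mm_three i
  set A : ℝ := 400 * (cK i * JJ) with hA
  have hA0 : 0 ≤ A := by
    have := mul_nonneg (cK_pos i).le JJ_nonneg
    rw [hA]
    linarith
  -- limit
  have hlim : Tendsto (fun δ : ℝ => A * ((mm i : ℝ) * δ) ^ (4 / 5 : ℝ)) (𝓝[>] 0) (𝓝 0) := by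
    have h1 : Continuous (fun δ : ℝ => A * ((mm i : ℝ) * δ) ^ (4 / 5 : ℝ)) := by
      refine continuous_const.mul ?_
      exact (continuous_const.mul continuous_id).rpow_const (fun _ => Or.inr (by norm_num))
    have h2 := h1.tendsto 0
    simp only [mul_zero] at h2
    rw [Real.zero_rpow (by norm_num), mul_zero] at h2
    exact h2.mono_left nhdsWithin_le_nhds
  have hev : ∀ᶠ δ in 𝓝[>] (0 : ℝ), A * ((mm i : ℝ) * δ) ^ (4 / 5 : ℝ) < gs i / 2 :=
    hlim.eventually (gt_mem_nhds (by linarith))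
  have hev2 : ∀ᶠ δ in 𝓝[>] (0 : ℝ), δ < (be i - al i) / 4 :=
    nhdsWithin_le_nhds (gt_mem_nhds (by linarith))
  have hev3 : ∀ᶠ δ in 𝓝[>] (0 : ℝ), 0 < δ := self_mem_nhdsWithin
  obtain ⟨δ, hδ1, hδ2, hδ3⟩ := (hev.and (hev2.and hev3)).exists
  refine ⟨δ, hδ3, hδ2, fun t ht htn => ?_⟩
  have hs0 := ang ht.1 ht.2
  have hs : 0 ≤ Real.sin (mm i * (t - al i)) :=
    (Real.sin_pos_of_pos_of_lt_pi hs0.1 hs0.2).le
  have hsin : Real.sin (mm i * (t - al i)) ≤ mm i * δ := by
    by_cases h : t < al i + δ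
    · calc Real.sin (mm i * (t - al i)) ≤ mm i * (t - al i) := Real.sin_le hs0.1.le
        _ ≤ mm i * δ := mul_le_mul_of_nonneg_left (by linarith) (by linarith)
    · have h' : be i - δ < t := by
        by_contra hcon
        exact htn ⟨not_lt.1 h, not_lt.1 hcon⟩
      have e : Real.sin (mm i * (t - al i)) = Real.sin (mm i * (be i - t)) := by
        rw [← Real.sin_pi_sub, ← be_sub i]
        congr 1
        ring
      rw [e]
      have h2 : 0 ≤ (mm i : ℝ) * (be i - t) := mul_nonneg (by linarith) (by linarith [ht.2])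
      calc Real.sin (mm i * (be i - t)) ≤ mm i * (be i - t) := Real.sin_le h2
        _ ≤ mm i * δ := mul_le_mul_of_nonneg_left (by linarith) (by linarith)
  refine (gam_le h0 ht).trans ?_
  rw [← hA]
  have h5 : (Real.sin (mm i * (t - al i))) ^ (4 / 5 : ℝ) ≤ ((mm i : ℝ) * δ) ^ (4 / 5 : ℝ) :=
    Real.rpow_le_rpow hs hsin (by norm_num)
  have h6 := mul_le_mul_of_nonneg_left h5 hA0
  linarith

/-- **S1** -/
theorem st_S1 (h0 : ST_SEC0) : ST_S1 := by
  refine ⟨?_, gam_bdd h0, gs_pos h0, fun i a b ha hb => gam_low h0 i ha hb, ?_⟩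
  · intro i x hx
    obtain ⟨harg, hpol⟩ := arm_polar hx
    have hr : 0 < ‖x‖ := norm_pos_iff.2 hx.1
    have h1 := int_unit (ex_mem harg) (ex_norm x.arg)
    have h2 := scale h0 (ex_mem harg) hr h1.1
    rw [← hpol] at h2
    refine ⟨h2.1, ?_⟩
    rw [h2.2]
    have h3 : psi x = ‖x‖ * psi (ex x.arg) := by
      conv_lhs => rw [hpol]
      exact psi_smul hr _
    have h4 := psi_ex h0 harg
    have h5 : psi (ex x.arg) ≠ 0 := by
      have : 0 < psi (ex x.arg) := by linarith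
      exact this.ne'
    rw [h3]
    unfold gam
    field_simp
  · choose δ hδ using ends h0
    refine ⟨fun i => al i + δ i / 2, fun i => be i - δ i / 2, fun i => al i + δ i,
      fun i => be i - δ i, ?_⟩
    refine ⟨fun i => ?_, fun i => ?_, fun i => ?_, fun i => ?_, fun i => ?_, ?_⟩
    · have := (hδ i).1
      linarith
    · have := (hδ i).1
      linarith
    · have := (hδ i).1
      have h2 := (hδ i).2.1
      have h3 := al_lt_be i
      linarith
    · have := (hδ i).1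
      linarith
    · have := (hδ i).1
      linarith
    · intro i t ht htn
      exact (hδ i).2.2 t ht htn

end LEP.S1
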