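import Pool.Agent.Helper14.LE.Stmts

/-! # MP_08fe4e_an: module SECG (Green function of the truncated sectors) -/

open MeasureTheory Set Filter Topology InnerProductSpace

noncomputable section

namespace LEP.SECG

theorem mm_pos (i : Fin 2) : 0 < mm i := by
  fin_cases i <;> simp [mm]

theorem al_pos (i : Fin 2) : 0 < al i := by
  have := Real.pi_pos
  fin_cases i <;> simp [al, th0] <;> positivity

theorem al_lt_be (i : Fin 2) : al i < be i := by
  have := Real.pi_pos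
  have h := mm_pos i
  unfold be
  have : 0 < Real.pi / mm i := by positivity
  linarith

theorem be_lt (i : Fin 2) : be i < Real.pi / 2 := by
  have := Real.pi_pos
  fin_cases i
  · simp only [be, al, mm, th0]
    norm_num
    linarith
  · simp only [be, al, mm, th0]
    norm_num
    linarith

theorem be_sub (i : Fin 2) : (mm i : ℝ) * (be i - al i) = Real.pi := by
  have h : (mm i : ℝ) ≠ 0 := by exact_mod_cast (mm_pos i).ne'
  unfold be
  field_simp
  ring

/-- polar form of `pw`. -/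
theorem pw_polar (i : Fin 2) (x : ℂ) : pw i x = ((‖x‖ ^ mm i : ℝ) : ℂ) *
    Complex.exp ((((mm i : ℝ) * (Complex.arg x - al i) : ℝ) : ℂ) * Complex.I) := by
  unfold pw
  conv_lhs => rw [← Complex.norm_mul_exp_arg_mul_I x]
  rw [show Complex.exp (-(al i : ℂ) * Complex.I) * (‖x‖ * Complex.exp (Complex.arg x *
    Complex.I)) = ‖x‖ * (Complex.exp (-(al i : ℂ) * Complex.I) * Complex.exp (Complex.arg x *
    Complex.I)) by ring, mul_pow, ← Complex.exp_add, ← Complex.exp_nat_mul]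
  push_cast
  congr 2
  ring

theorem pw_im (i : Fin 2) (x : ℂ) : (pw i x).im =
    ‖x‖ ^ mm i * Real.sin (mm i * (Complex.arg x - al i)) := by
  rw [pw_polar, Complex.im_ofReal_mul, Complex.exp_ofReal_mul_I_im]

theorem pw_re (i : Fin 2) (x : ℂ) : (pw i x).re =
    ‖x‖ ^ mm i * Real.cos (mm i * (Complex.arg x - al i)) := by
  rw [pw_polar, Complex.re_ofReal_mul, Complex.exp_ofReal_mul_I_re]

theorem pw_norm (i : Fin 2) (x : ℂ) : ‖pw i x‖ = ‖x‖ ^ mm i := by
  rw [pw_polar, norm_mul, Complex.norm_exp_ofReal_mul_I, mul_one, Complex.norm_real,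
    Real.norm_of_nonneg (by positivity)]

theorem ang {i : Fin 2} {t : ℝ} (h1 : al i < t) (h2 : t < be i) :
    0 < (mm i : ℝ) * (t - al i) ∧ (mm i : ℝ) * (t - al i) < Real.pi := by
  have h : (0 : ℝ) < mm i := by exact_mod_cast mm_pos i
  refine ⟨mul_pos h (by linarith), ?_⟩
  rw [← be_sub i]
  exact mul_lt_mul_of_pos_left (by linarith) h

theorem im_pos {i : Fin 2} {x : ℂ} (hx : x ∈ Arm i) : 0 < (pw i x).im := by
  rw [pw_im]
  have h := ang hx.2.1 hx.2.2
  exact mul_pos (pow_pos (norm_pos_iff.2 hx.1) _) (Real.sin_pos_of_pos_of_lt_pi h.1 h.2)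

/-- the geometric sum. -/
def S (i : Fin 2) (x y : ℂ) : ℂ := Complex.exp (-(al i : ℂ) * Complex.I) ^ (mm i) *
  ∑ j ∈ Finset.range (mm i), x ^ j * y ^ (mm i - 1 - j)

theorem pw_sub (i : Fin 2) (x y : ℂ) : pw i x - pw i y = S i x y * (x - y) := by
  unfold pw S
  rw [mul_assoc, geom_sum₂_mul, mul_pow, mul_pow]
  ring

theorem pw_inj {i : Fin 2} {x y : ℂ} (hx : x ∈ Arm i) (hy : y ∈ Arm i)
    (h : pw i x = pw i y) : x = y := by
  have h1 : ‖x‖ ^ mm i = ‖y‖ ^ mm i := by rw [← pw_norm, ← pw_norm, h]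
  have h2 : ‖x‖ = ‖y‖ := (pow_left_inj₀ (norm_nonneg _) (norm_nonneg _) (mm_pos i).ne').1 h1
  have hyp : (0 : ℝ) < ‖y‖ ^ mm i := pow_pos (norm_pos_iff.2 hy.1) _
  have h3 : Real.cos (mm i * (Complex.arg x - al i)) = Real.cos (mm i * (Complex.arg y - al i)) := by
    have := congrArg Complex.re h
    rw [pw_re, pw_re, h1] at this
    exact mul_left_cancel₀ hyp.ne' this
  have ax := ang hx.2.1 hx.2.2
  have ay := ang hy.2.1 hy.2.2
  have h4 := Real.injOn_cos ⟨ax.1.le, ax.2.le⟩ ⟨ay.1.le, ay.2.le⟩ h3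
  have hm : (mm i : ℝ) ≠ 0 := by exact_mod_cast (mm_pos i).ne'
  have h5 := mul_left_cancel₀ hm h4
  exact Complex.ext_norm_arg h2 (by linarith)

theorem S_ne {i : Fin 2} {x y : ℂ} (hx : x ∈ Arm i) (hy : y ∈ Arm i) : S i x y ≠ 0 := by
  by_cases hxy : x = y
  · subst hxy
    unfold S
    refine mul_ne_zero (pow_ne_zero _ (Complex.exp_ne_zero _)) ?_
    have : ∀ j ∈ Finset.range (mm i), x ^ j * x ^ (mm i - 1 - j) = x ^ (mm i - 1) := by
      intro j hj
      rw [← pow_add]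
      congr 1
      have := Finset.mem_range.1 hj
      omega
    rw [Finset.sum_congr rfl this, Finset.sum_const, Finset.card_range, nsmul_eq_mul]
    exact mul_ne_zero (by exact_mod_cast (mm_pos i).ne') (pow_ne_zero _ hx.1)
  · intro h
    apply hxy
    apply pw_inj hx hy
    rw [← sub_eq_zero, pw_sub, h, zero_mul]

/-- reflection -/
theorem pw_refl (i : Fin 2) (r : ℝ) (y : ℂ) : pw i ((r : ℂ) ^ 2 / starRingEnd ℂ y) =
    ((r ^ mm i) ^ 2 : ℝ) / starRingEnd ℂ (pw i y) := by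
  unfold pw
  have h1 : starRingEnd ℂ (Complex.exp (-(al i : ℂ) * Complex.I)) =
      (Complex.exp (-(al i : ℂ) * Complex.I))⁻¹ := by
    rw [← Complex.exp_conj, ← Complex.exp_neg]
    simp
  rw [map_pow, map_mul, h1, mul_pow, mul_pow, div_pow]
  push_cast
  rw [← pow_mul, ← pow_mul, mul_comm 2 (mm i), inv_pow]
  field_simp

/-- the function `G`. -/
def GG (i : Fin 2) (ρ : ℝ) (x y : ℂ) : ℝ := (1 / (2 * Real.pi)) *
  (Real.log ‖pw i x - starRingEnd ℂ (pw i y)‖ - Real.log ‖pw i x - pw i y‖ -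
    Real.log ‖pw i x * pw i y - ((ρ ^ mm i) ^ 2 : ℝ)‖ +
    Real.log ‖pw i x * starRingEnd ℂ (pw i y) - ((ρ ^ mm i) ^ 2 : ℝ)‖)

theorem normsq_conj (X Y : ℂ) : ‖X - starRingEnd ℂ Y‖ ^ 2 = ‖X - Y‖ ^ 2 + 4 * X.im * Y.im := by
  rw [← Complex.normSq_eq_norm_sq, ← Complex.normSq_eq_norm_sq, Complex.normSq_apply,
    Complex.normSq_apply]
  simp
  ring

theorem log_form (X Y : ℂ) (h1 : X ≠ Y) (h2 : X ≠ starRingEnd ℂ Y) :
    (1 / (4 * Real.pi)) * Real.log (1 + 4 * X.im * Y.im / ‖X - Y‖ ^ 2) =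
    (1 / (2 * Real.pi)) * (Real.log ‖X - starRingEnd ℂ Y‖ - Real.log ‖X - Y‖) := by
  have h1' : ‖X - Y‖ ≠ 0 := norm_ne_zero_iff.2 (sub_ne_zero.2 h1)
  have h2' : ‖X - starRingEnd ℂ Y‖ ≠ 0 := norm_ne_zero_iff.2 (sub_ne_zero.2 h2)
  have : 1 + 4 * X.im * Y.im / ‖X - Y‖ ^ 2 = (‖X - starRingEnd ℂ Y‖ / ‖X - Y‖) ^ 2 := by
    rw [div_pow, normsq_conj]
    field_simp
  rw [this, Real.log_pow, Real.log_div h2' h1']
  have := Real.pi_pos
  field_simp
  push_cast
  ring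

/-- `GAR` in the logarithmic form. -/
theorem GAR_eq {i : Fin 2} {ρ : ℝ} (hρ : 0 < ρ) {x y : ℂ} (hx : x ∈ ArmR i ρ)
    (hy : y ∈ ArmR i ρ) (hxy : x ≠ y) : GAR i ρ x y = GG i ρ x y := by
  have hX := im_pos hx.1
  have hY := im_pos hy.1
  set X := pw i x with hXd
  set Y := pw i y with hYd
  have hY0 : Y ≠ 0 := by
    intro h
    rw [h] at hY
    simp at hY
  have hYc0 : starRingEnd ℂ Y ≠ 0 := (map_ne_zero _).2 hY0
  have hne : X ≠ Y := fun h => hxy (pw_inj hx.1 hy.1 h)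
  have hnc : X ≠ starRingEnd ℂ Y := by
    intro h
    have := congrArg Complex.im h
    rw [Complex.conj_im] at this
    linarith
  have hr : (0 : ℝ) < ρ ^ mm i := pow_pos hρ _
  have hXr : ‖X‖ < ρ ^ mm i := by
    rw [hXd, pw_norm]
    exact pow_lt_pow_left₀ hx.2 (norm_nonneg _) (mm_pos i).ne'
  have hYr : ‖Y‖ < ρ ^ mm i := by
    rw [hYd, pw_norm]
    exact pow_lt_pow_left₀ hy.2 (norm_nonneg _) (mm_pos i).ne'
  have hXY : X * Y ≠ ((ρ ^ mm i) ^ 2 : ℝ) := by
    intro h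
    have h' := congrArg norm h
    rw [norm_mul, Complex.norm_real, Real.norm_of_nonneg (by positivity), sq] at h'
    exact absurd h' (mul_lt_mul'' hXr hYr (norm_nonneg _) (norm_nonneg _)).ne
  have hXYc : X * starRingEnd ℂ Y ≠ ((ρ ^ mm i) ^ 2 : ℝ) := by
    intro h
    have h' := congrArg norm h
    rw [norm_mul, RCLike.norm_conj, Complex.norm_real, Real.norm_of_nonneg (by positivity), sq]
      at h'
    exact absurd h' (mul_lt_mul'' hXr hYr (norm_nonneg _) (norm_nonneg _)).ne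
  unfold GAR GA GG
  rw [pw_refl, ← hXd, ← hYd]
  set r : ℝ := (ρ ^ mm i) ^ 2 with hrd
  have h1 : X ≠ (r : ℂ) / starRingEnd ℂ Y := by
    intro h
    apply hXYc
    rw [h]
    field_simp
  have h2 : X ≠ starRingEnd ℂ ((r : ℂ) / starRingEnd ℂ Y) := by
    intro h
    apply hXY
    rw [h]
    simp only [map_div₀, Complex.conj_ofReal, Complex.conj_conj]
    field_simp
  rw [log_form X Y hne hnc, log_form X _ h1 h2]
  have h3 : X - (r : ℂ) / starRingEnd ℂ Y = (X * starRingEnd ℂ Y - r) / starRingEnd ℂ Y := by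
    field_simp
  have h4 : X - starRingEnd ℂ ((r : ℂ) / starRingEnd ℂ Y) = (X * Y - r) / Y := by
    simp only [map_div₀, Complex.conj_ofReal, Complex.conj_conj]
    field_simp
  rw [h3, h4, norm_div, norm_div, RCLike.norm_conj,
    Real.log_div (norm_ne_zero_iff.2 (sub_ne_zero.2 hXY)) (norm_ne_zero_iff.2 hY0),
    Real.log_div (norm_ne_zero_iff.2 (sub_ne_zero.2 hXYc)) (norm_ne_zero_iff.2 hY0)]
  ring

theorem pw_cont (i : Fin 2) : Continuous (pw i) := by
  unfold pw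
  fun_prop

theorem pw_diff (i : Fin 2) : Differentiable ℂ (pw i) := by
  unfold pw
  fun_prop

/-- nonvanishing facts in the truncated sector. -/
theorem facts {i : Fin 2} {ρ : ℝ} (hρ : 0 < ρ) {x y : ℂ} (hx : x ∈ ArmR i ρ)
    (hy : y ∈ ArmR i ρ) : pw i x ≠ starRingEnd ℂ (pw i y) ∧
      pw i x * pw i y ≠ ((ρ ^ mm i) ^ 2 : ℝ) ∧
      pw i x * starRingEnd ℂ (pw i y) ≠ ((ρ ^ mm i) ^ 2 : ℝ) ∧
      ‖pw i x‖ < ρ ^ mm i ∧ ‖pw i y‖ < ρ ^ mm i := by
  have hX := im_pos hx.1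
  have hY := im_pos hy.1
  have hXr : ‖pw i x‖ < ρ ^ mm i := by
    rw [pw_norm]
    exact pow_lt_pow_left₀ hx.2 (norm_nonneg _) (mm_pos i).ne'
  have hYr : ‖pw i y‖ < ρ ^ mm i := by
    rw [pw_norm]
    exact pow_lt_pow_left₀ hy.2 (norm_nonneg _) (mm_pos i).ne'
  refine ⟨?_, ?_, ?_, hXr, hYr⟩
  · intro h
    have := congrArg Complex.im h
    rw [Complex.conj_im] at this
    linarith
  · intro h
    have h' := congrArg norm h
    rw [norm_mul, Complex.norm_real, Real.norm_of_nonneg (by positivity), sq] at h'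
    exact absurd h' (mul_lt_mul'' hXr hYr (norm_nonneg _) (norm_nonneg _)).ne
  · intro h
    have h' := congrArg norm h
    rw [norm_mul, RCLike.norm_conj, Complex.norm_real, Real.norm_of_nonneg (by positivity), sq]
      at h'
    exact absurd h' (mul_lt_mul'' hXr hYr (norm_nonneg _) (norm_nonneg _)).ne

theorem GG_symm (i : Fin 2) (ρ : ℝ) (x y : ℂ) : GG i ρ x y = GG i ρ y x := by
  unfold GG
  have h1 : ‖pw i x - starRingEnd ℂ (pw i y)‖ = ‖pw i y - starRingEnd ℂ (pw i x)‖ := by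
    rw [← RCLike.norm_conj (pw i x - starRingEnd ℂ (pw i y)), ← norm_neg]
    congr 1
    simp
  have h2 : ‖pw i x * starRingEnd ℂ (pw i y) - ((ρ ^ mm i) ^ 2 : ℝ)‖ =
      ‖pw i y * starRingEnd ℂ (pw i x) - ((ρ ^ mm i) ^ 2 : ℝ)‖ := by
    rw [← RCLike.norm_conj (pw i x * starRingEnd ℂ (pw i y) - ((ρ ^ mm i) ^ 2 : ℝ))]
    congr 1
    simp only [map_sub, map_mul, Complex.conj_conj, Complex.conj_ofReal]
    ring
  rw [h1, h2, norm_sub_rev (pw i x) (pw i y), mul_comm (pw i x) (pw i y)]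

theorem GG_nonneg {i : Fin 2} {ρ : ℝ} (hρ : 0 < ρ) {x y : ℂ} (hx : x ∈ ArmR i ρ)
    (hy : y ∈ ArmR i ρ) (hxy : x ≠ y) : 0 ≤ GG i ρ x y := by
  obtain ⟨h1, h2, h3, h4, h5⟩ := facts hρ hx hy
  have hX := im_pos hx.1
  have hY := im_pos hy.1
  have hne : pw i x ≠ pw i y := fun h => hxy (pw_inj hx.1 hy.1 h)
  unfold GG
  set X := pw i x
  set Y := pw i y
  set r : ℝ := (ρ ^ mm i) ^ 2 with hr
  have p1 : 0 < ‖X - starRingEnd ℂ Y‖ := norm_pos_iff.2 (sub_ne_zero.2 h1)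
  have p2 : 0 < ‖X * Y - (r : ℂ)‖ := norm_pos_iff.2 (sub_ne_zero.2 h2)
  have p3 : 0 < ‖X * starRingEnd ℂ Y - (r : ℂ)‖ := norm_pos_iff.2 (sub_ne_zero.2 h3)
  have p4 : 0 < ‖X - Y‖ := norm_pos_iff.2 (sub_ne_zero.2 hne)
  have key : ‖X - Y‖ * ‖X * Y - (r : ℂ)‖ ≤ ‖X - starRingEnd ℂ Y‖ *
      ‖X * starRingEnd ℂ Y - (r : ℂ)‖ := by
    apply le_of_sq_le_sq _ (by positivity)
    rw [mul_pow, mul_pow, normsq_conj]
    have e1 : ‖X * Y - (r : ℂ)‖ ^ 2 = ‖X * starRingEnd ℂ Y - (r : ℂ)‖ ^ 2 +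
        4 * r * X.im * Y.im := by
      rw [← Complex.normSq_eq_norm_sq, ← Complex.normSq_eq_norm_sq, Complex.normSq_apply,
        Complex.normSq_apply]
      simp
      ring
    have e2 : ‖X * starRingEnd ℂ Y - (r : ℂ)‖ ^ 2 - r * ‖X - Y‖ ^ 2 =
        (r - ‖X‖ ^ 2) * (r - ‖Y‖ ^ 2) := by
      rw [← Complex.normSq_eq_norm_sq, ← Complex.normSq_eq_norm_sq, ← Complex.normSq_eq_norm_sq,
        ← Complex.normSq_eq_norm_sq, Complex.normSq_apply,
        Complex.normSq_apply, Complex.normSq_apply, Complex.normSq_apply]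
      simp
      ring
    have e3 : 0 ≤ (r - ‖X‖ ^ 2) * (r - ‖Y‖ ^ 2) := by
      apply mul_nonneg
      · rw [hr]
        have := pow_le_pow_left₀ (norm_nonneg X) h4.le 2
        linarith
      · rw [hr]
        have := pow_le_pow_left₀ (norm_nonneg Y) h5.le 2
        linarith
    rw [e1]
    have h6 : 0 < X.im * Y.im := mul_pos hX hY
    nlinarith [mul_nonneg h6.le (e2 ▸ e3 : 0 ≤ ‖X * starRingEnd ℂ Y - (r : ℂ)‖ ^ 2 -
      r * ‖X - Y‖ ^ 2)]
  have hlog := Real.log_le_log (by positivity) key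
  rw [Real.log_mul p4.ne' p2.ne', Real.log_mul p1.ne' p3.ne'] at hlog
  have := Real.pi_pos
  apply mul_nonneg (by positivity)
  linarith

/-- the regular part. -/
def hh (i : Fin 2) (ρ : ℝ) (x y : ℂ) : ℝ := (1 / (2 * Real.pi)) *
  (Real.log ‖pw i x - starRingEnd ℂ (pw i y)‖ - Real.log ‖S i x y‖ -
    Real.log ‖pw i x * pw i y - ((ρ ^ mm i) ^ 2 : ℝ)‖ +
    Real.log ‖pw i x * starRingEnd ℂ (pw i y) - ((ρ ^ mm i) ^ 2 : ℝ)‖)

theorem GG_hh {i : Fin 2} {ρ : ℝ} {x y : ℂ} (hx : x ∈ ArmR i ρ)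
    (hy : y ∈ ArmR i ρ) (hxy : x ≠ y) :
    GG i ρ x y = hh i ρ x y - (1 / (2 * Real.pi)) * Real.log ‖x - y‖ := by
  unfold GG hh
  rw [pw_sub, norm_mul, Real.log_mul (norm_ne_zero_iff.2 (S_ne hx.1 hy.1))
    (norm_ne_zero_iff.2 (sub_ne_zero.2 hxy))]
  ring

theorem hh_cont {i : Fin 2} {ρ : ℝ} (hρ : 0 < ρ) :
    ContinuousOn (fun q : ℂ × ℂ => hh i ρ q.1 q.2) (ArmR i ρ ×ˢ ArmR i ρ) := by
  have hp := pw_cont i
  have hconj : Continuous (starRingEnd ℂ) := Complex.continuous_conj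
  unfold hh
  refine ContinuousOn.mul continuousOn_const (((?_ : ContinuousOn _ _).sub ?_).sub ?_ |>.add ?_)
  · refine ContinuousOn.log (Continuous.continuousOn (by fun_prop)) ?_
    rintro ⟨x, y⟩ ⟨hx, hy⟩
    exact norm_ne_zero_iff.2 (sub_ne_zero.2 (facts hρ hx hy).1)
  · refine ContinuousOn.log (Continuous.continuousOn ?_) ?_
    · unfold S
      fun_prop
    rintro ⟨x, y⟩ ⟨hx, hy⟩
    exact norm_ne_zero_iff.2 (S_ne hx.1 hy.1)
  · refine ContinuousOn.log (Continuous.continuousOn (by fun_prop)) ?_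
    rintro ⟨x, y⟩ ⟨hx, hy⟩
    exact norm_ne_zero_iff.2 (sub_ne_zero.2 (facts hρ hx hy).2.1)
  · refine ContinuousOn.log (Continuous.continuousOn (by fun_prop)) ?_
    rintro ⟨x, y⟩ ⟨hx, hy⟩
    exact norm_ne_zero_iff.2 (sub_ne_zero.2 (facts hρ hx hy).2.2.1)

theorem hh_harm {i : Fin 2} {ρ : ℝ} (hρ : 0 < ρ) {y : ℂ} (hy : y ∈ ArmR i ρ) :
    HarmonicOnNhd (fun x => hh i ρ x y) (ArmR i ρ) := by
  intro x hx
  obtain ⟨h1, h2, h3, _, _⟩ := facts hρ hx hy
  have hp : AnalyticAt ℂ (pw i) x := (pw_diff i).analyticAt x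
  have a1 : HarmonicAt (fun x => Real.log ‖pw i x - starRingEnd ℂ (pw i y)‖) x :=
    AnalyticAt.harmonicAt_log_norm (by fun_prop) (sub_ne_zero.2 h1)
  have a2 : HarmonicAt (fun x => Real.log ‖S i x y‖) x := by
    refine AnalyticAt.harmonicAt_log_norm ?_ (S_ne hx.1 hy.1)
    have : Differentiable ℂ (fun x => S i x y) := by
      unfold S
      fun_prop
    exact this.analyticAt x
  have a3 : HarmonicAt (fun x => Real.log ‖pw i x * pw i y - ((ρ ^ mm i) ^ 2 : ℝ)‖) x :=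
    AnalyticAt.harmonicAt_log_norm (by fun_prop) (sub_ne_zero.2 h2)
  have a4 : HarmonicAt (fun x => Real.log ‖pw i x * starRingEnd ℂ (pw i y) -
      ((ρ ^ mm i) ^ 2 : ℝ)‖) x :=
    AnalyticAt.harmonicAt_log_norm (by fun_prop) (sub_ne_zero.2 h3)
  exact (((a1.sub a2).sub a3).add a4).const_smul (c := 1 / (2 * Real.pi))

theorem arm_open (i : Fin 2) : IsOpen (Arm i) := by
  have h : Arm i = Qd ∩ Complex.arg ⁻¹' (Ioo (al i) (be i)) := by
    ext z
    constructor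
    · rintro ⟨h0, h1, h2⟩
      refine ⟨?_, h1, h2⟩
      have hz := Complex.norm_mul_exp_arg_mul_I z
      have hn : 0 < ‖z‖ := norm_pos_iff.2 h0
      have hb := be_lt i
      have ha := al_pos i
      have hre : z.re = ‖z‖ * Real.cos z.arg := by
        conv_lhs => rw [← hz]
        rw [Complex.re_ofReal_mul, Complex.exp_ofReal_mul_I_re]
      have him : z.im = ‖z‖ * Real.sin z.arg := by
        conv_lhs => rw [← hz]
        rw [Complex.im_ofReal_mul, Complex.exp_ofReal_mul_I_im]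
      constructor
      · rw [hre]
        exact mul_pos hn (Real.cos_pos_of_mem_Ioo ⟨by linarith, by linarith⟩)
      · rw [him]
        exact mul_pos hn (Real.sin_pos_of_pos_of_lt_pi (by linarith)
          (by linarith [Real.pi_pos]))
    · rintro ⟨⟨h0, _⟩, h1, h2⟩
      refine ⟨?_, h1, h2⟩
      rintro rfl
      simp at h0
  rw [h]
  have hQ : IsOpen Qd := by
    have : Qd = {z : ℂ | 0 < z.re} ∩ {z : ℂ | 0 < z.im} := rfl
    rw [this]
    exact (isOpen_lt continuous_const Complex.continuous_re).inter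
      (isOpen_lt continuous_const Complex.continuous_im)
  refine ContinuousOn.isOpen_inter_preimage ?_ hQ isOpen_Ioo
  intro z hz
  exact (Complex.continuousAt_arg (Or.inl hz.1)).continuousWithinAt

theorem armR_open (i : Fin 2) (ρ : ℝ) : IsOpen (ArmR i ρ) :=
  (arm_open i).inter (isOpen_lt continuous_norm continuous_const)

theorem arm_qd {i : Fin 2} {z : ℂ} (hz : z ∈ Arm i) : 0 < z.re ∧ 0 < z.im := by
  obtain ⟨h0, h1, h2⟩ := hz
  have hz := Complex.norm_mul_exp_arg_mul_I z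
  have hn : 0 < ‖z‖ := norm_pos_iff.2 h0
  have hb := be_lt i
  have ha := al_pos i
  have hre : z.re = ‖z‖ * Real.cos z.arg := by
    conv_lhs => rw [← hz]
    rw [Complex.re_ofReal_mul, Complex.exp_ofReal_mul_I_re]
  have him : z.im = ‖z‖ * Real.sin z.arg := by
    conv_lhs => rw [← hz]
    rw [Complex.im_ofReal_mul, Complex.exp_ofReal_mul_I_im]
  constructor
  · rw [hre]
    exact mul_pos hn (Real.cos_pos_of_mem_Ioo ⟨by linarith, by linarith⟩)
  · rw [him]
    exact mul_pos hn (Real.sin_pos_of_pos_of_lt_pi (by linarith)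
      (by linarith [Real.pi_pos]))

/-- boundary points of the truncated sector. -/
theorem bd {i : Fin 2} {ρ : ℝ} {x : ℂ} (hx : x ∈ closure (ArmR i ρ)) (hn : x ∉ ArmR i ρ) :
    0 ≤ (pw i x).im ∧ ‖pw i x‖ ≤ ρ ^ mm i ∧ ((pw i x).im = 0 ∨ ‖pw i x‖ = ρ ^ mm i) := by
  have h1 : ‖x‖ ≤ ρ := by
    have : closure (ArmR i ρ) ⊆ {z : ℂ | ‖z‖ ≤ ρ} :=
      closure_minimal (fun z hz => hz.2.le) (isClosed_le continuous_norm continuous_const)
    exact this hx
  have h2 : 0 ≤ (pw i x).im := by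
    have : closure (ArmR i ρ) ⊆ {z : ℂ | 0 ≤ (pw i z).im} :=
      closure_minimal (fun z hz => (im_pos hz.1).le)
        (isClosed_le continuous_const (Complex.continuous_im.comp (pw_cont i)))
    exact this hx
  have h3 : 0 ≤ x.re ∧ 0 ≤ x.im := by
    have : closure (ArmR i ρ) ⊆ {z : ℂ | 0 ≤ z.re} ∩ {z : ℂ | 0 ≤ z.im} :=
      closure_minimal (fun z hz => ⟨(arm_qd hz.1).1.le, (arm_qd hz.1).2.le⟩)
        ((isClosed_le continuous_const Complex.continuous_re).inter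
          (isClosed_le continuous_const Complex.continuous_im))
    exact this hx
  refine ⟨h2, by rw [pw_norm]; exact pow_le_pow_left₀ (norm_nonneg _) h1 _, ?_⟩
  by_contra hcon
  push Not at hcon
  obtain ⟨h4, h5⟩ := hcon
  apply hn
  have hx0 : x ≠ 0 := by
    rintro rfl
    apply h4
    rw [pw_im, norm_zero, zero_pow (mm_pos i).ne', zero_mul]
  have hsl : x ∈ Complex.slitPlane := by
    rcases lt_or_eq_of_le h3.1 with h | h
    · exact Or.inl h
    · right
      intro h'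
      exact hx0 (Complex.ext h.symm h')
  have harg : x.arg ∈ Icc (al i) (be i) := by
    have hc := (Complex.continuousAt_arg hsl).continuousWithinAt (s := ArmR i ρ)
    have := hc.mem_closure_image hx
    have hsub : closure (Complex.arg '' ArmR i ρ) ⊆ Icc (al i) (be i) := by
      refine closure_minimal ?_ isClosed_Icc
      rintro _ ⟨z, hz, rfl⟩
      exact ⟨hz.1.2.1.le, hz.1.2.2.le⟩
    exact hsub this
  have ha : x.arg ≠ al i := by
    intro h
    apply h4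
    rw [pw_im, h, sub_self, mul_zero, Real.sin_zero, mul_zero]
  have hb : x.arg ≠ be i := by
    intro h
    apply h4
    rw [pw_im, h, be_sub, Real.sin_pi, mul_zero]
  refine ⟨⟨hx0, lt_of_le_of_ne harg.1 (Ne.symm ha), lt_of_le_of_ne harg.2 hb⟩, ?_⟩
  refine lt_of_le_of_ne h1 ?_
  rintro rfl
  exact h5 (pw_norm i x)

/-- `G` vanishes and is continuous on the boundary. -/
theorem GG_bd {i : Fin 2} {ρ : ℝ} (hρ : 0 < ρ) {x y : ℂ} (hx : x ∈ closure (ArmR i ρ))
    (hn : x ∉ ArmR i ρ) (hy : y ∈ ArmR i ρ) : GG i ρ x y = 0 ∧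
      ContinuousAt (fun q : ℂ × ℂ => GG i ρ q.1 q.2) (x, y) := by
  obtain ⟨hX, hXr, hor⟩ := bd hx hn
  have hY := im_pos hy.1
  have hYr : ‖pw i y‖ < ρ ^ mm i := by
    rw [pw_norm]
    exact pow_lt_pow_left₀ hy.2 (norm_nonneg _) (mm_pos i).ne'
  have hr0 : (0 : ℝ) < ρ ^ mm i := pow_pos hρ _
  have n1 : pw i x ≠ starRingEnd ℂ (pw i y) := by
    intro h
    have := congrArg Complex.im h
    rw [Complex.conj_im] at this
    linarith
  have n2 : pw i x ≠ pw i y := by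
    intro h
    rcases hor with h1 | h1
    · rw [h] at h1
      linarith
    · rw [h] at h1
      linarith
  have n3 : pw i x * pw i y ≠ ((ρ ^ mm i) ^ 2 : ℝ) := by
    intro h
    have h' := congrArg norm h
    rw [norm_mul, Complex.norm_real, Real.norm_of_nonneg (by positivity), sq] at h'
    have : ‖pw i x‖ * ‖pw i y‖ < ρ ^ mm i * ρ ^ mm i :=
      mul_lt_mul' hXr hYr (norm_nonneg _) hr0
    linarith
  have n4 : pw i x * starRingEnd ℂ (pw i y) ≠ ((ρ ^ mm i) ^ 2 : ℝ) := by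
    intro h
    have h' := congrArg norm h
    rw [norm_mul, RCLike.norm_conj, Complex.norm_real, Real.norm_of_nonneg (by positivity), sq]
      at h'
    have : ‖pw i x‖ * ‖pw i y‖ < ρ ^ mm i * ρ ^ mm i :=
      mul_lt_mul' hXr hYr (norm_nonneg _) hr0
    linarith
  constructor
  · unfold GG
    set X := pw i x
    set Y := pw i y
    set r : ℝ := (ρ ^ mm i) ^ 2 with hr
    rcases hor with h1 | h1
    · have hXc : starRingEnd ℂ X = X := Complex.conj_eq_iff_im.2 h1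
      have e1 : ‖X - starRingEnd ℂ Y‖ = ‖X - Y‖ := by
        rw [← RCLike.norm_conj (X - starRingEnd ℂ Y)]
        congr 1
        rw [map_sub, Complex.conj_conj, hXc]
      have e2 : ‖X * starRingEnd ℂ Y - (r : ℂ)‖ = ‖X * Y - (r : ℂ)‖ := by
        rw [← RCLike.norm_conj (X * starRingEnd ℂ Y - (r : ℂ))]
        congr 1
        rw [map_sub, map_mul, Complex.conj_conj, hXc, Complex.conj_ofReal]
      rw [e1, e2]
      ring
    · have hXX : (r : ℂ) = X * starRingEnd ℂ X := by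
        rw [Complex.mul_conj, Complex.normSq_eq_norm_sq, h1]
      have hX0 : ‖X‖ ≠ 0 := by rw [h1]; exact hr0.ne'
      have e1 : ‖X * Y - (r : ℂ)‖ = ‖X‖ * ‖X - starRingEnd ℂ Y‖ := by
        rw [hXX, ← mul_sub, norm_mul]
        congr 1
        rw [← RCLike.norm_conj (Y - starRingEnd ℂ X), ← norm_neg]
        congr 1
        simp
      have e2 : ‖X * starRingEnd ℂ Y - (r : ℂ)‖ = ‖X‖ * ‖X - Y‖ := by
        rw [hXX, ← mul_sub, norm_mul]
        congr 1
        rw [← map_sub, RCLike.norm_conj, norm_sub_rev]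
      rw [e1, e2, Real.log_mul hX0 (norm_ne_zero_iff.2 (sub_ne_zero.2 n1)),
        Real.log_mul hX0 (norm_ne_zero_iff.2 (sub_ne_zero.2 n2))]
      ring
  · have hp := pw_cont i
    have hconj : Continuous (starRingEnd ℂ) := Complex.continuous_conj
    unfold GG
    refine ContinuousAt.mul continuousAt_const
      (((?_ : ContinuousAt _ _).sub ?_).sub ?_ |>.add ?_)
    · exact ContinuousAt.log (Continuous.continuousAt (by fun_prop))
        (norm_ne_zero_iff.2 (sub_ne_zero.2 n1))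
    · exact ContinuousAt.log (Continuous.continuousAt (by fun_prop))
        (norm_ne_zero_iff.2 (sub_ne_zero.2 n2))
    · exact ContinuousAt.log (Continuous.continuousAt (by fun_prop))
        (norm_ne_zero_iff.2 (sub_ne_zero.2 n3))
    · exact ContinuousAt.log (Continuous.continuousAt (by fun_prop))
        (norm_ne_zero_iff.2 (sub_ne_zero.2 n4))

theorem armR_bdd (i : Fin 2) (ρ : ℝ) : Bornology.IsBounded (ArmR i ρ) :=
  Metric.isBounded_ball.subset (s := ArmR i ρ) (t := Metric.ball 0 ρ) (fun z hz => by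
    rw [mem_ball_zero_iff]; exact hz.2)

open Classical in
/-- **SECG** -/
theorem st_SECG : ST_SECG := by
  intro i ρ hρ
  have hval : ∀ x y, x ∈ ArmR i ρ → y ∈ ArmR i ρ → x ≠ y →
      (if x ∈ ArmR i ρ ∧ y ∈ ArmR i ρ ∧ x ≠ y then GAR i ρ x y else 0) = GG i ρ x y := by
    intro x y hx hy hxy
    rw [if_pos ⟨hx, hy, hxy⟩, GAR_eq hρ hx hy hxy]
  refine ⟨?_, ?_, ⟨hh i ρ, hh_cont hρ, fun y hy => hh_harm hρ hy, ?_⟩, ?_, ?_, ?_⟩
  · intro x hx y hy
    by_cases hxy : x = y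
    · rw [hxy]
    · rw [hval x y hx hy hxy, hval y x hy hx (Ne.symm hxy), GG_symm]
  · intro x y
    split_ifs with h
    · rw [GAR_eq hρ h.1 h.2.1 h.2.2]
      exact GG_nonneg hρ h.1 h.2.1 h.2.2
    · exact le_refl _
  · intro x hx y hy hxy
    rw [hval x y hx hy hxy, GG_hh hx hy hxy]
  · intro K hK hKc ε hε
    have hT : IsCompact (closure (ArmR i ρ) \ ArmR i ρ) :=
      ((armR_bdd i ρ).isCompact_closure).diff (armR_open i ρ)
    have hnh : {q : ℂ × ℂ | GG i ρ q.1 q.2 < ε} ∈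
        𝓝ˢ ((closure (ArmR i ρ) \ ArmR i ρ) ×ˢ K) := by
      rw [mem_nhdsSet_iff_forall]
      rintro ⟨x, y⟩ ⟨hx, hy⟩
      obtain ⟨h0, hc⟩ := GG_bd hρ hx.1 hx.2 (hK hy)
      have : Iio ε ∈ 𝓝 (GG i ρ x y) := by
        rw [h0]
        exact Iio_mem_nhds hε
      exact hc this
    rw [hT.nhdsSet_prod_eq hKc, Filter.mem_prod_iff] at hnh
    obtain ⟨V, hV, W, hW, hVW⟩ := hnh
    obtain ⟨V', hV'o, hV'1, hV'2⟩ := mem_nhdsSet_iff_exists.1 hV
    refine ⟨closure (ArmR i ρ) \ V', ?_, ((armR_bdd i ρ).isCompact_closure).diff hV'o, ?_⟩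
    · intro z hz
      by_contra hcon
      exact hz.2 (hV'1 ⟨hz.1, hcon⟩)
    · intro y hy x hx
      by_cases hxy : x = y
      · rw [if_neg (by rintro ⟨_, _, h⟩; exact h hxy)]
        exact hε
      · rw [hval x y hx.1 (hK hy) hxy]
        have hxV : x ∈ V' := by
          by_contra h
          exact hx.2 ⟨subset_closure hx.1, h⟩
        have hxV2 : x ∈ V := hV'2 hxV
        have hyW : y ∈ W := subset_of_mem_nhdsSet hW hy
        have hmem : ((x, y) : ℂ × ℂ) ∈ V ×ˢ W := ⟨hxV2, hyW⟩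
        have hfin := hVW hmem
        rw [Set.mem_ofPred_eq] at hfin
        exact hfin
  · intro x
    rw [if_neg]
    rintro ⟨_, _, h⟩
    exact h rfl
  · intro x y h
    rw [if_neg]
    rintro ⟨h1, h2, _⟩
    rcases h with h | h
    · exact h h1
    · exact h h2

end LEP.SECG
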